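import Mathlib
import Pool.Agent.H712P.B4

/-!
# MP_e3daee_pr: a local martingale which is not a regular semimartingale in a larger filtration

The answer to Q1 is no. Let `W` be a Brownian motion, `q` an independent exponential variable and
`B_t = W_t + t` (a Brownian motion with drift, obtained below by a change of measure). Put
`S_t = max(q, max_{u ≤ t} B_u)` and `X_t = 2 (S_t - S_0) - B_t`. By Pitman's theorem in the form of
Burke's theorem for the reflected process `S - B` in equilibrium, `M_t = X_t - t` is a Brownian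
motion in the filtration `𝓕` which it generates. In the filtration `𝓖` generated by `q` and `B`
its decomposition is `M = N + A`, `N_t = t - B_t`, `A_t = 2 (S_t - S_0) - 2 t`, and `A` is not
absolutely continuous, since `S` grows only on the Lebesgue null set `{t : S_t = B_t}`.
All processes are stopped at time `1`.
-/

set_option autoImplicit false

open scoped ENNReal NNReal Topology
open MeasureTheory ProbabilityTheory Set Filter Pool.Agent.H712P

namespace Pool.Agent.Results.MP_e3daee_pr.NotRegular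

/-- `Y` is a regular semimartingale with respect to the filtration `𝓖`: in its decomposition
`Y = N + A`, for almost every `ω` the function `t ↦ A_t(ω)` is absolutely continuous with respect
to `t ↦ [N,N]_t(ω)`. -/
def IsRegular {Ω : Type*} {mΩ : MeasurableSpace Ω} (P : Measure Ω) (𝓖 : Filtration ℝ≥0 mΩ)
    (Y : ℝ≥0 → Ω → ℝ) : Prop :=
  ∀ N A V : ℝ≥0 → Ω → ℝ, IsDecomp P 𝓖 Y N A → IsQuadVar P 𝓖 N V →
    ∀ᵐ ω ∂P, AC (fun t => A t ω) (fun t => V t ω)

/-- There are a complete probability space, filtrations `𝓕 ≤ 𝓖` containing the null sets, and a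
continuous `𝓕`-local martingale `M` with `[M,M]_t = min t 1`, which is a `𝓖`-semimartingale
`M = N + A` with `[N,N]_t = min t 1`, such that `A` is not almost surely absolutely continuous with
respect to `[N,N]`. So `M` is not a regular `𝓖`-semimartingale. -/
theorem result : ∃ (Ω : Type) (mΩ : MeasurableSpace Ω) (P : Measure Ω)
    (_ : IsProbabilityMeasure P) (_ : P.IsComplete) (𝓕 𝓖 : Filtration ℝ≥0 mΩ)
    (M N A : ℝ≥0 → Ω → ℝ),
    HasNullSets P 𝓕 ∧ HasNullSets P 𝓖 ∧ 𝓕 ≤ 𝓖 ∧
    IsContLocMart P 𝓕 M ∧ IsQuadVar P 𝓕 M (fun t _ => ((min t 1 : ℝ≥0) : ℝ)) ∧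
    IsDecomp P 𝓖 M N A ∧ IsQuadVar P 𝓖 N (fun t _ => ((min t 1 : ℝ≥0) : ℝ)) ∧
    (¬ ∀ᵐ ω ∂P, AC (fun t => A t ω) (fun t => ((min t 1 : ℝ≥0) : ℝ))) ∧
    ¬ IsRegular P 𝓖 M := by
  obtain ⟨Ω, mΩ, P, hP, hc, 𝓕, 𝓖, M, N, A, h1, h2, h3, h4, h5, h6, h7, h8⟩ := main
  exact ⟨Ω, mΩ, P, hP, hc, 𝓕, 𝓖, M, N, A, h1, h2, h3, h4, h5, h6, h7, h8,
    fun hr => h8 (hr N A _ h6 h7)⟩

end Pool.Agent.Results.MP_e3daee_pr.NotRegular
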